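import Pool.Agent.Q220.FC.Union

/-!
# MP_a60a76_nt: the bad primes of the curves congruent to the members of a family

Let `A`, `B` be polynomials in `r` parameters with integral coefficients. We consider the members
`E_t : y² = x³ + A(t)x + B(t)`, `t` integral, of the family, with discriminant `Δ(t) ≠ 0`, where
`Δ = 4A³ + 27B²`, and ALL elliptic curves `E'` over number fields `L` (partners) with isomorphic Galois
modules `E'[n]`, `E_t[n]` over `L`. No condition is put on the size or the conductor of `E'`, and it need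
not be a member of a family.

Let `P_1, …, P_s` be irreducible factors of `Δ`, pairwise not associated, not constant, and let `w_i` be the
multiplicity of `P_i` in `Δ`.

**Part 1 (additive, potentially good fibres).** Suppose that `P_i ^ (a_i)` divides `A`, `w_i ≤ 3 a_i` and
that `12` does not divide `w_i` (the fibre types `II, III, IV, I₀*, IV*, III*, II*` of minimal equations), and let
`κ` be at least all `deg P_i / U_i`, `U_i = 12 / gcd(12, w_i)`. For every `ε > 0` all but at most
`C H ^ (r - 1 + κ + ε)` of the about `(2H) ^ r` integral `t`, `|t_j| ≤ H`, have this property: for ALL `n ≥ 3`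
and ALL number fields `L` of degree prime to `6` (for instance `L = ℚ`) in which the prime factors `p ≥ 17` of
`n` which divide one of the `P_i(t)` do not ramify, every partner has BAD REDUCTION at places above `s`
different prime numbers `q_1, …, q_s ≥ 17`, `q_i` dividing `P_i(t)`.

**Part 2 (fibres with a pole of the invariant).** Suppose that `a_i` is the exact multiplicity of `P_i` in
`A` and `3 a_i < w_i` (the fibre types `I_m`, `I_m*`, `m = w_i - 3 a_i`), let `N ≥ 13` be larger than all
`w_i - 3 a_i`, and let `κ` be at least all `deg P_i / N`. All but at most `C H ^ (r - 1 + κ + ε)` of the `t` have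
this property: for ALL primes `p ≥ N` and ALL number fields `L` of degree less than `p`, the invariant of
every elliptic curve over `L` with the same `p`-division field as `E_t` (over `L`) has poles at places above
`s` different prime numbers `q_i > 3`, `q_i` dividing `P_i(t)`.

**Part 3.** `p`-congruent curves have the same `p`-division field.

So outside a small exceptional set of parameters, which does not depend on `n`, on `p` or on the field, the
partners of `E_t` have at least as many bad primes as `Δ` has such factors; in particular the partners over `ℚ`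
with good reduction outside a given finite set (all partners of small conductor in this sense) are excluded
for all `n ≥ 3` at once. For a conjecture which says that the partners are isogenous to `E_t` (so that they
have exactly the bad primes of `E_t`) this is a necessary condition.

**Examples.** For `y² = x³ + t` (`P = t`, `w = 2`, `U = 6`) there are at most `C H ^ (1/6 + ε)` exceptions; the
exponent `1/6` is optimal, because `y² = x³ + u ^ 6` is isomorphic to `y² = x³ + 1`, which has good reduction at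
all primes `≥ 5`. For the family `y² = x³ + t_1 x + t_2` of all curves (`P = 4 t_1³ + 27 t_2²`, `w = 1`) Part 2
with `N = 13` has at most `C H ^ (1 + 3/13 + ε)` exceptions among the `(2H)²` curves. The short equation of
`y² = x (x - t_1) (x - t_2)` has the three factors `t_1`, `t_2`, `t_1 - t_2` with `w = 2`, `a = 0`: outside
`C H ^ (1 + 1/13 + ε)` parameters the invariants of all partners have poles above three different primes.

**Proof.** Let `q ≥ 17` be a prime factor of `P_i(t)` which does not divide the cofactor of `P_i(t) ^ (w_i)` in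
`Δ(t)`, and suppose that `E'` has good reduction at the places above `q`. By the local theorems of the
starting library (`Pool.Agent.Y673.FM.{tameG, locG}`; the first if `q` does not divide `n`, the second for
`q`-torsion with `q` unramified) `12` divides the valuation of `Δ(t)` at every place above `q`; since
`[L : ℚ]` is prime to `2` and `3` there are places of odd ramification index and of ramification index prime
to `3`, so `12` divides `w_i v_q(P_i(t))`. Hence `P_i(t)` is a `U_i`-th power up to prime factors which are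
less than `17` or divide the cofactor, and the points with this property are counted as in
`Pool.Agent.Q170.FZ`. The prime numbers `q_i` are different since `P_j(t)` divides the cofactor
for `j ≠ i`. Part 2: `Pool.Agent.Y673.FM.loc`.
-/

set_option autoImplicit false

open MvPolynomial NumberField IsDedekindDomain
open scoped Classical

namespace Pool.Agent.Results.MP_a60a76_nt.BadPrimesOfPartners

section
variable {L : Type} [Field L]

/-- The curve `y² = x³ + Ax + B` over `L`. -/
def curve (A B : L) : WeierstrassCurve L := ⟨0, 0, 0, A, B⟩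

/-- The group of its points over the algebraic closure of `L`. -/
abbrev Points (A B : L) : Type := ((curve A B).baseChange (AlgebraicClosure L)).toAffine.Point

/-- The action of an `L`-automorphism `σ` of the algebraic closure on the points. -/
noncomputable def galois (A B : L) (σ : AlgebraicClosure L ≃ₐ[L] AlgebraicClosure L) :
    Points A B →+ Points A B :=
  WeierstrassCurve.Affine.Point.map (σ : AlgebraicClosure L →ₐ[L] AlgebraicClosure L)

/-- The curves `y² = x³ + Ax + B` and `y² = x³ + A'x + B'` are `n`-congruent over `L`: some map between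
the groups of points restricts to a bijective additive map of the points killed by `n` which commutes
with the Galois group of `L`. -/
def Congruent (n : ℕ) (A B A' B' : L) : Prop :=
  ∃ f : Points A B → Points A' B', (∀ P Q, n • P = 0 → n • Q = 0 → f (P + Q) = f P + f Q) ∧
    Set.BijOn f {P | n • P = 0} {Q | n • Q = 0} ∧
    ∀ (σ : AlgebraicClosure L ≃ₐ[L] AlgebraicClosure L) (P : Points A B), n • P = 0 →
      f (galois A B σ P) = galois A' B' σ (f P)

/-- The curves have the same `p`-division field: an automorphism fixes all points killed by `p` of the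
first if and only if it fixes all points killed by `p` of the second. -/
def SameDivisionField (p : ℕ) (A B A' B' : L) : Prop :=
  ∀ σ : AlgebraicClosure L ≃ₐ[L] AlgebraicClosure L,
    (∀ P : Points A B, p • P = 0 → galois A B σ P = P) ↔
      (∀ P : Points A' B', p • P = 0 → galois A' B' σ P = P)

/-- The invariant of `y² = x³ + Ax + B`. -/
noncomputable def jInvariant (A B : L) : L := 6912 * A ^ 3 / (4 * A ^ 3 + 27 * B ^ 2)

variable [NumberField L]

/-- Good reduction of `y² = x³ + Ax + B` at a place `v` which does not divide `6`: the curve is isomorphic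
over `L` to some `y² = x³ + ax + b` with `v`-integral `a`, `b` and `4a³ + 27b²` a unit at `v`. -/
def GoodReduction (v : HeightOneSpectrum (𝓞 L)) (A B : L) : Prop :=
  ∃ u a b : L, u ≠ 0 ∧ A = u ^ 4 * a ∧ B = u ^ 6 * b ∧ v.valuation L a ≤ 1 ∧
    v.valuation L b ≤ 1 ∧ v.valuation L (4 * a ^ 3 + 27 * b ^ 2) = 1

end

/-- Some elliptic curve over a number field `L` is `n`-congruent to `y² = x³ + ax + b`, and there are NO `s`
different primes `q_1, …, q_s ≥ 17` with `q_i ∣ d_i` such that it has bad reduction at some place above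
every `q_i`; here `n ≥ 3`, the degree of `L` is prime to `6`, and the primes `p ≥ 17` which divide `n` and some
`d_i` do not ramify in `L`. -/
def FewBadPrimes (s : ℕ) (d : Fin s → ℤ) (a b : ℤ) : Prop :=
  ∃ (n : ℕ) (L : Type) (_ : Field L) (_ : NumberField L), 3 ≤ n ∧
    (Module.finrank ℚ L).Coprime 6 ∧
    (∀ p : ℕ, p.Prime → 17 ≤ p → p ∣ n → (∃ i, (p : ℤ) ∣ d i) →
      ∀ v : HeightOneSpectrum (𝓞 L), (p : 𝓞 L) ∉ v.asIdeal ^ 2) ∧
    ∃ A' B' : L, 4 * A' ^ 3 + 27 * B' ^ 2 ≠ 0 ∧ Congruent n (a : L) (b : L) A' B' ∧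
      ¬ ∃ q : Fin s → ℕ, Function.Injective q ∧ ∀ i, (q i).Prime ∧ 17 ≤ q i ∧
        ((q i : ℕ) : ℤ) ∣ d i ∧ ∃ v : HeightOneSpectrum (𝓞 L),
          ((q i : ℕ) : 𝓞 L) ∈ v.asIdeal ∧ ¬ GoodReduction v A' B'

/-- For some prime `p ≥ N` some elliptic curve over a number field `L` of degree less than `p` has the same
`p`-division field over `L` as `y² = x³ + ax + b`, and there are NO `s` different primes
`q_1, …, q_s > 3` with `q_i ∣ d_i` such that its invariant has a pole at some place above every `q_i`. -/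
def FewPoles (N s : ℕ) (d : Fin s → ℤ) (a b : ℤ) : Prop :=
  ∃ (p : ℕ) (L : Type) (_ : Field L) (_ : NumberField L), p.Prime ∧ N ≤ p ∧
    Module.finrank ℚ L < p ∧
    ∃ A' B' : L, 4 * A' ^ 3 + 27 * B' ^ 2 ≠ 0 ∧ SameDivisionField p (a : L) (b : L) A' B' ∧
      ¬ ∃ q : Fin s → ℕ, Function.Injective q ∧ ∀ i, (q i).Prime ∧ 3 < q i ∧
        ((q i : ℕ) : ℤ) ∣ d i ∧ ∃ v : HeightOneSpectrum (𝓞 L),
          ((q i : ℕ) : 𝓞 L) ∈ v.asIdeal ∧ 1 < v.valuation L (jInvariant A' B')

/-- The translation of `v`-integrality. -/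
theorem integral_iff {L : Type} [Field L] [NumberField L] (v : HeightOneSpectrum (𝓞 L)) (x : L) :
    v.valuation L x ≤ 1 ↔ (Pool.Agent.Y673.Loc.adv L v).G 0 x := by
  by_cases hx : x = 0
  · rw [hx, map_zero]
    exact ⟨fun _ => Or.inl rfl, fun _ => zero_le_one⟩
  · have h0 : v.valuation L x ≠ 0 := (Valuation.ne_zero_iff _).2 hx
    have h1 := WithZero.log_le_log h0 (one_ne_zero (α := WithZero (Multiplicative ℤ)))
    rw [WithZero.log_one] at h1
    rw [← h1]
    have e : (Pool.Agent.Y673.Loc.adv L v).v x = -WithZero.log (v.valuation L x) := rfl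
    constructor
    · intro h
      right
      rw [e]
      omega
    · rintro (h | h)
      · exact absurd h hx
      · rw [e] at h
        omega

/-- The translation of good reduction. -/
theorem good_iff {L : Type} [Field L] [NumberField L] (v : HeightOneSpectrum (𝓞 L)) {A B : L}
    (h : GoodReduction v A B) : Pool.Agent.Q220.FC.GoodA v A B := by
  obtain ⟨u, a, b, hu, hA, hB, ha, hb, hd⟩ := h
  refine ⟨u, a, b, hu, hA, hB, (integral_iff v a).1 ha, (integral_iff v b).1 hb, ?_⟩
  show -WithZero.log (v.valuation L (4 * a ^ 3 + 27 * b ^ 2)) = 0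
  rw [hd, WithZero.log_one, neg_zero]

/-- The choice of the primes. -/
theorem choice {s : ℕ} (d g : Fin s → ℤ) (hdg : ∀ i j, i ≠ j → d j ∣ g i) (T : ℕ → Prop)
    (h : ¬ ∃ q : Fin s → ℕ, Function.Injective q ∧ ∀ i, ((q i : ℕ) : ℤ) ∣ d i ∧ T (q i)) :
    ∃ i, ∀ q : ℕ, (q : ℤ) ∣ d i → ¬ (q : ℤ) ∣ g i → ¬ T q := by
  by_contra hcon
  push Not at hcon
  choose q hq1 hq2 hq3 using hcon
  refine h ⟨q, ?_, fun i => ⟨hq1 i, hq3 i⟩⟩
  intro i j hij
  by_contra hne
  apply hq2 i
  refine dvd_trans ?_ (hdg i j hne)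
  rw [hij]
  exact hq1 j

/-- **The bad primes of the curves congruent to the members of a family.** -/
theorem result :
    (∀ (r s : ℕ) (A B : MvPolynomial (Fin r) ℤ) (P G : Fin s → MvPolynomial (Fin r) ℤ)
      (w a : Fin s → ℕ) (κ : ℝ), (∀ i, Irreducible (P i)) → (∀ i, 0 < (P i).totalDegree) →
      (∀ i j, i ≠ j → ¬ Associated (P i) (P j)) →
      (∀ i, 4 * A ^ 3 + 27 * B ^ 2 = P i ^ w i * G i) → (∀ i, ¬ P i ∣ G i) →
      (∀ i, P i ^ a i ∣ A) → (∀ i, w i ≤ 3 * a i) → (∀ i, ¬ 12 ∣ w i) →
      (∀ i, ((P i).totalDegree : ℝ) / ((12 / Nat.gcd 12 (w i) : ℕ) : ℝ) ≤ κ) →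
      ∀ ε : ℝ, 0 < ε → ∃ C : ℝ, 0 < C ∧ ∀ H : ℕ, 1 ≤ H →
        ((({t : Fin r → ℤ | (∀ j, |t j| ≤ H) ∧ 4 * (eval t A) ^ 3 + 27 * (eval t B) ^ 2 ≠ 0 ∧
          FewBadPrimes s (fun i => eval t (P i)) (eval t A) (eval t B)}).ncard : ℕ) : ℝ) ≤
          C * (H : ℝ) ^ ((r : ℝ) - 1 + κ + ε)) ∧
    (∀ (r s : ℕ) (A B : MvPolynomial (Fin r) ℤ) (P G : Fin s → MvPolynomial (Fin r) ℤ)
      (w a : Fin s → ℕ) (N : ℕ) (κ : ℝ), (∀ i, Irreducible (P i)) →
      (∀ i, 0 < (P i).totalDegree) → (∀ i j, i ≠ j → ¬ Associated (P i) (P j)) →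
      (∀ i, 4 * A ^ 3 + 27 * B ^ 2 = P i ^ w i * G i) → (∀ i, ¬ P i ∣ G i) →
      (∀ i, P i ^ a i ∣ A) → (∀ i, ¬ P i ^ (a i + 1) ∣ A) → (∀ i, 3 * a i < w i) →
      13 ≤ N → (∀ i, w i - 3 * a i < N) →
      (∀ i, ((P i).totalDegree : ℝ) / (N : ℝ) ≤ κ) →
      ∀ ε : ℝ, 0 < ε → ∃ C : ℝ, 0 < C ∧ ∀ H : ℕ, 1 ≤ H →
        ((({t : Fin r → ℤ | (∀ j, |t j| ≤ H) ∧ 4 * (eval t A) ^ 3 + 27 * (eval t B) ^ 2 ≠ 0 ∧
          FewPoles N s (fun i => eval t (P i)) (eval t A) (eval t B)}).ncard : ℕ) : ℝ) ≤
          C * (H : ℝ) ^ ((r : ℝ) - 1 + κ + ε)) ∧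
    (∀ (L : Type) [Field L] (p : ℕ) (A B A' B' : L), Congruent p A B A' B' →
      SameDivisionField p A B A' B') := by
  refine ⟨?_, ?_, ?_⟩
  · intro r s A B P G w a κ hP hPd hPP hG hPG ha hwa h12 hκ ε hε
    have hdvd : ∀ i j, i ≠ j → P j ∣ G i := by
      intro i j hij
      have hPj : Prime (P j) := UniqueFactorizationMonoid.irreducible_iff_prime.1 (hP j)
      have hw : w j ≠ 0 := by
        intro h0
        exact h12 j (by rw [h0]; exact dvd_zero _)
      have h1 : P j ∣ P i ^ w i * G i := by
        rw [← hG i, hG j]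
        exact dvd_mul_of_dvd_left (dvd_pow_self _ hw) _
      rcases hPj.dvd_or_dvd h1 with h2 | h2
      · exfalso
        exact hPP i j hij (((hP j).associated_of_dvd (hP i) (hPj.dvd_of_dvd_pow h2)).symm)
      · exact h2
    obtain ⟨C, hC, hcount⟩ := Pool.Agent.Q220.FC.union_count (r := r) (s := s)
      (fun i => (r : ℝ) - 1 + (P i).totalDegree / ((12 / Nat.gcd 12 (w i) : ℕ) : ℝ) + ε)
      ((r : ℝ) - 1 + κ + ε) (fun i => by have := hκ i; linarith)
      (fun i t => 4 * (eval t A) ^ 3 + 27 * (eval t B) ^ 2 ≠ 0 ∧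
        Pool.Agent.Q220.FC.Bad1 (eval t A) (eval t B) (eval t (P i)) (eval t (G i)))
      (fun i => Pool.Agent.Q220.FC.fam1 A B (P i) (G i) (hP i) (hPd i) (w i) (a i) (hG i)
        (hPG i) (ha i) (hwa i) (h12 i) ε hε)
    refine ⟨C, hC, fun H hH => hcount H hH _ fun t ht => ⟨ht.1, ?_⟩⟩
    obtain ⟨-, hD, n, L, iF, iN, hn, hL, hram, A', B', hD', ⟨f, hf1, hf2, hf3⟩, hno⟩ := ht
    obtain ⟨i, hi⟩ := choice (fun i => eval t (P i)) (fun i => eval t (G i))
      (fun i j hij => (hdvd i j hij).elim fun c hc => ⟨eval t c, by rw [hc, map_mul]⟩)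
      (fun q => q.Prime ∧ 17 ≤ q ∧ ∃ v : HeightOneSpectrum (𝓞 L),
          (q : 𝓞 L) ∈ v.asIdeal ∧ ¬ GoodReduction v A' B')
      (fun ⟨q, hq1, hq2⟩ => hno ⟨q, hq1, fun i => ⟨(hq2 i).2.1, (hq2 i).2.2.1, (hq2 i).1,
        (hq2 i).2.2.2⟩⟩)
    refine ⟨i, hD, n, hn, L, iF, iN, hL, fun p hp hp17 hpn hpd => hram p hp hp17 hpn ⟨i, hpd⟩,
      A', B', hD', ⟨f, hf1, hf2, hf3⟩, fun q hq hq17 hqd hqg v hqv => ?_⟩
    by_contra hcon
    exact hi q hqd hqg ⟨hq, hq17, v, hqv, fun h => hcon (good_iff v h)⟩
  · intro r s A B P G w a N κ hP hPd hPP hG hPG ha ha2 hwa hN hwN hκ ε hε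
    have hdvd : ∀ i j, i ≠ j → P j ∣ G i := by
      intro i j hij
      have hPj : Prime (P j) := UniqueFactorizationMonoid.irreducible_iff_prime.1 (hP j)
      have hw : w j ≠ 0 := by
        have := hwa j
        omega
      have h1 : P j ∣ P i ^ w i * G i := by
        rw [← hG i, hG j]
        exact dvd_mul_of_dvd_left (dvd_pow_self _ hw) _
      rcases hPj.dvd_or_dvd h1 with h2 | h2
      · exfalso
        exact hPP i j hij (((hP j).associated_of_dvd (hP i) (hPj.dvd_of_dvd_pow h2)).symm)
      · exact h2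
    obtain ⟨C, hC, hcount⟩ := Pool.Agent.Q220.FC.union_count (r := r) (s := s)
      (fun i => (r : ℝ) - 1 + (P i).totalDegree / (N : ℝ) + ε)
      ((r : ℝ) - 1 + κ + ε) (fun i => by have := hκ i; linarith)
      (fun i t => 4 * (eval t A) ^ 3 + 27 * (eval t B) ^ 2 ≠ 0 ∧
        Pool.Agent.Q220.FC.Bad2 N (eval t A) (eval t B) (eval t (P i)) (eval t (G i)))
      (fun i => Pool.Agent.Q220.FC.fam2 A B (P i) (G i) (hP i) (hPd i) (w i) (a i) (hG i)
        (hPG i) (ha i) (ha2 i) (hwa i) N hN (hwN i) ε hε)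
    refine ⟨C, hC, fun H hH => hcount H hH _ fun t ht => ⟨ht.1, ?_⟩⟩
    obtain ⟨-, hD, p, L, iF, iN, hp, hNp, hL, A', B', hD', hF, hno⟩ := ht
    obtain ⟨i, hi⟩ := choice (fun i => eval t (P i)) (fun i => eval t (G i))
      (fun i j hij => (hdvd i j hij).elim fun c hc => ⟨eval t c, by rw [hc, map_mul]⟩)
      (fun q => q.Prime ∧ 3 < q ∧ ∃ v : HeightOneSpectrum (𝓞 L),
          (q : 𝓞 L) ∈ v.asIdeal ∧ 1 < v.valuation L (jInvariant A' B'))
      (fun ⟨q, hq1, hq2⟩ => hno ⟨q, hq1, fun i => ⟨(hq2 i).2.1, (hq2 i).2.2.1, (hq2 i).1,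
        (hq2 i).2.2.2⟩⟩)
    refine ⟨i, hD, p, hp, hNp, L, iF, iN, hL, A', B', hD', hF,
      fun q hq hq3 hqd hqg v hqv => ?_⟩
    by_contra hcon
    refine hi q hqd hqg ⟨hq, hq3, v, hqv, ?_⟩
    by_contra h
    exact hcon ((integral_iff v _).1 (not_lt.1 h))
  · rintro L _ p A B A' B' ⟨f, -, h1, h2⟩ σ
    constructor
    · intro h Q hQ
      obtain ⟨P, hP, rfl⟩ := h1.surjOn (show Q ∈ {Q | p • Q = 0} from hQ)
      rw [← h2 σ P hP, h P hP]
    · intro h P hP
      have h3 : p • galois A B σ P = 0 := by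
        rw [← map_nsmul]
        have : p • P = 0 := hP
        rw [this, map_zero]
      refine h1.injOn (show galois A B σ P ∈ {P | p • P = 0} from h3)
        (show P ∈ {P | p • P = 0} from hP) ?_
      rw [h2 σ P hP]
      exact h _ (h1.mapsTo (show P ∈ {P | p • P = 0} from hP))

end Pool.Agent.Results.MP_a60a76_nt.BadPrimesOfPartners
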