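import Pool.Agent.Q46.FR.Exc

/-!
# MP_a60a76_nt: for p > 17 there are only finitely many exceptions (p, E₁, E₂) with E₁ a twist of a curve with
good reduction outside c and den j(E₂) < (√p - 1)^(2p); and congruent curves have the same number of points
modulo all primes less than (√p - 1)²

**Part 1.** Let `c ≥ 1`. Let `E₁` be any quadratic twist (by an integer `d ≠ 0`) of any elliptic curve
`y² = x³ + A₁x + B₁` over `ℚ` with integral `A₁, B₁` such that the prime divisors of `4A₁³ + 27B₁²` divide `c`, let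
`p > 17` be a prime and `E₂` ANY elliptic curve over `ℚ` which is `p`-congruent to `E₁`. Then `E₁, E₂` are
ISOGENOUS, or the denominator of `j(E₂)` is at least `(√p - 1) ^ (2p)` [more precisely: the exponent of some
prime `l ∤ 6c`, `√l ≥ √p - 1`, in the denominator is positive and divisible by `p`, and `l = p` or `p` divides one of
`#E(𝔽_l)`, `2l + 2 - #E(𝔽_l)`, `E : y² = x³ + A₁x + B₁`], or `(p, E₁, E₂)` is, up to simultaneous quadratic
twists and isomorphisms over `ℚ`, in a FINITE set `T(c)` of triples. So for every `c` only finitely many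
counterexamples to the Frey-Mazur conjecture, all primes `p > 17` together and up to simultaneous twists,
have `den j(E₂) < (√p - 1) ^ (2p)`.

**Part 2 (explicit, all pairs).** Let `p > 17` be a prime, `E₁ : y² = x³ + A₁x + B₁` and
`E₂ : y² = x³ + A₂x + B₂` any two `p`-congruent curves with integral coefficients, and `l > 3` a prime less than
`(√p - 1)²` which does not divide `4A₁³ + 27B₁²`. Then `E₂` has good reduction at `l` (`l` does not divide the
denominator of `j(E₂)`, and the exponent of `l` in `4A₂³ + 27B₂²` is divisible by twelve), and if this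
exponent is zero then `#E₁(𝔽_l) = #E₂(𝔽_l)`. So the condition of Faltings' criterion for an isogeny holds
at all these primes. (For primes `l` of good reduction of both curves this is the well-known congruence
`a_l(E₁) ≡ a_l(E₂)` with the Hasse bound.)

**Proof.** See `Q46/FR`: at a place of good reduction of `E₁` and positive order of the pole of `j(E₂)`, the
comparison of the relation `σ² - a_l σ + l = 0` for a Frobenius element with its action on the quotient of
`E₂[p]` by the points of level zero gives `p ∣ l + 1 ∓ a_l(E₁)`, and `p ≤ (√l + 1)²` by the Hasse bound; the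
exponent of `l` is divisible by `p` (`FM.loc`, `FM.tameM` of helper673). Without such a pole the twist of `E₂`
has good reduction outside `6c` and the primes `≤ 17` (`FM.locG`, `FM.tameG`), so it is in a finite set
(Shafarevich, `Q46/FM`), and for each pair of curves which are not isogenous the relation at one place bounds `p`.
The relation and the Hasse bound are proved with the degree form on the points of the twist of `y² = x³ + ax + b` by
`t³ + at + b` over the field of rational functions (Manin); lemmas by helpers 14, 16 and 210; the reduction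
homomorphism is by helper901.
-/

set_option autoImplicit false

open NumberField
open scoped Classical

namespace Pool.Agent.Results.MP_a60a76_nt.FinitelyManyExceptions

/-- The curve `y² = x³ + Ax + B` over `ℚ`. -/
def curve (A B : ℚ) : WeierstrassCurve ℚ := ⟨0, 0, 0, A, B⟩

/-- The group of its points over the algebraic closure of `ℚ`. -/
abbrev Points (A B : ℚ) : Type := ((curve A B).baseChange (AlgebraicClosure ℚ)).toAffine.Point

/-- The action of an automorphism `σ` of the algebraic closure on the points. -/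
noncomputable def galois (A B : ℚ) (σ : AlgebraicClosure ℚ ≃ₐ[ℚ] AlgebraicClosure ℚ) :
    Points A B →+ Points A B :=
  WeierstrassCurve.Affine.Point.map (σ : AlgebraicClosure ℚ →ₐ[ℚ] AlgebraicClosure ℚ)

/-- The curves `y² = x³ + Ax + B` and `y² = x³ + A'x + B'` are `p`-congruent: some map between the
groups of points restricts to a bijective additive map between the groups of points killed by `p` which
commutes with the Galois group. -/
def Congruent (p : ℕ) (A B A' B' : ℚ) : Prop :=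
  ∃ f : Points A B → Points A' B', (∀ P Q, p • P = 0 → p • Q = 0 → f (P + Q) = f P + f Q) ∧
    Set.BijOn f {P | p • P = 0} {Q | p • Q = 0} ∧
    ∀ (σ : AlgebraicClosure ℚ ≃ₐ[ℚ] AlgebraicClosure ℚ) (P : Points A B), p • P = 0 →
      f (galois A B σ P) = galois A' B' σ (f P)

/-- The invariant of `y² = x³ + Ax + B`. -/
def jInvariant (A B : ℚ) : ℚ := 6912 * A ^ 3 / (4 * A ^ 3 + 27 * B ^ 2)

/-- The curves `y² = x³ + Ax + B` and `y² = x³ + A'x + B'` are isomorphic over `ℚ`. -/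
def Isomorphic (A B A' B' : ℚ) : Prop := ∃ t : ℚ, t ≠ 0 ∧ A' = t ^ 4 * A ∧ B' = t ^ 6 * B

/-- The number of points of `y² = x³ + Ax + B` over the field with `l` elements, with the point at
infinity. -/
noncomputable def numPoints (l : ℕ) (A B : ℤ) : ℕ :=
  1 + Nat.card {P : ZMod l × ZMod l // P.2 ^ 2 = P.1 ^ 3 + (A : ZMod l) * P.1 + (B : ZMod l)}

/-- The two curves have the same number of points modulo all but finitely many primes. By Faltings'
theorem they are isogenous over `ℚ` if and only if this holds. -/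
def Isogenous (A B A' B' : ℤ) : Prop := {l : ℕ | l.Prime ∧ numPoints l A B ≠ numPoints l A' B'}.Finite

/-- **Finitely many exceptions with small denominator; the small primes.** -/
theorem result :
    (∀ c : ℕ, 0 < c → ∃ T : Finset (ℕ × (ℚ × ℚ) × (ℚ × ℚ)), ∀ p : ℕ, p.Prime → 17 < p →
      ∀ A₁ B₁ d A₂ B₂ : ℤ, 4 * A₁ ^ 3 + 27 * B₁ ^ 2 ≠ 0 → 4 * A₂ ^ 3 + 27 * B₂ ^ 2 ≠ 0 → d ≠ 0 →
      (∀ l : ℕ, l.Prime → (l : ℤ) ∣ 4 * A₁ ^ 3 + 27 * B₁ ^ 2 → l ∣ c) →
      Congruent p (A₂ : ℚ) (B₂ : ℚ) ((A₁ * d ^ 2 : ℤ) : ℚ) ((B₁ * d ^ 3 : ℤ) : ℚ) →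
        Isogenous A₂ B₂ (A₁ * d ^ 2) (B₁ * d ^ 3) ∨
          (∃ e ∈ T, e.1 = p ∧ Isomorphic e.2.1.1 e.2.1.2 (A₁ : ℚ) (B₁ : ℚ) ∧
            Isomorphic e.2.2.1 e.2.2.2 ((A₂ * d ^ 2 : ℤ) : ℚ) ((B₂ * d ^ 3 : ℤ) : ℚ)) ∨
          ((Real.sqrt p - 1) ^ (2 * p) ≤ ((jInvariant (A₂ : ℚ) (B₂ : ℚ)).den : ℝ) ∧
            ∃ l : ℕ, l.Prime ∧ ¬ l ∣ 6 * c ∧ l ∣ (jInvariant (A₂ : ℚ) (B₂ : ℚ)).den ∧
              p ∣ padicValNat l (jInvariant (A₂ : ℚ) (B₂ : ℚ)).den ∧
              (p : ℝ) ≤ (Real.sqrt l + 1) ^ 2 ∧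
              (l = p ∨ (p : ℤ) ∣ numPoints l A₁ B₁ ∨
                (p : ℤ) ∣ 2 * (l : ℤ) + 2 - numPoints l A₁ B₁))) ∧
    (∀ p : ℕ, p.Prime → 17 < p →
      ∀ A₁ B₁ A₂ B₂ : ℤ, 4 * A₁ ^ 3 + 27 * B₁ ^ 2 ≠ 0 → 4 * A₂ ^ 3 + 27 * B₂ ^ 2 ≠ 0 →
      Congruent p (A₂ : ℚ) (B₂ : ℚ) (A₁ : ℚ) (B₁ : ℚ) →
      ∀ l : ℕ, l.Prime → 3 < l → (Real.sqrt l + 1) ^ 2 < p → ¬ (l : ℤ) ∣ 4 * A₁ ^ 3 + 27 * B₁ ^ 2 →
        ¬ l ∣ (jInvariant (A₂ : ℚ) (B₂ : ℚ)).den ∧ 12 ∣ padicValInt l (4 * A₂ ^ 3 + 27 * B₂ ^ 2) ∧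
          (¬ (l : ℤ) ∣ 4 * A₂ ^ 3 + 27 * B₂ ^ 2 → numPoints l A₂ B₂ = numPoints l A₁ B₁)) := by
  constructor
  · intro c hc
    obtain ⟨T, hT⟩ := Pool.Agent.Q46.FR.exc c hc
    refine ⟨T, ?_⟩
    intro p hp h17 A₁ B₁ d A₂ B₂ hD₁ hD₂ hd hgood hf
    have e1 : ((A₁ * d ^ 2 : ℤ) : ℚ) = (A₁ : ℚ) * (d : ℚ) ^ 2 := by push_cast; ring
    have e2 : ((B₁ * d ^ 3 : ℤ) : ℚ) = (B₁ : ℚ) * (d : ℚ) ^ 3 := by push_cast; ring
    have e3 : ((A₂ * d ^ 2 : ℤ) : ℚ) = (A₂ : ℚ) * (d : ℚ) ^ 2 := by push_cast; ring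
    have e4 : ((B₂ * d ^ 3 : ℤ) : ℚ) = (B₂ : ℚ) * (d : ℚ) ^ 3 := by push_cast; ring
    rw [e1, e2] at hf
    obtain ⟨f, h1, h2, h3⟩ := hf
    rcases hT A₁ B₁ hD₁ hgood d A₂ B₂ hd hD₂ p hp (by omega) f ⟨h1, h2, h3⟩ with
      h | h | ⟨l, k1, k2, -, k4, k5, k6, k7⟩
    · rw [e3, e4]
      exact Or.inr (Or.inl h)
    · exact Or.inl h
    · right; right
      exact ⟨Pool.Agent.Q46.FR.den_large k1 (Rat.den_nz _) hp.one_le k6 k4 k5, l, k1, k2, k4, k5,
        k6, k7⟩
  · intro p hp h17 A₁ B₁ A₂ B₂ hD₁ hD₂ hf l hl hl3 hlp hgood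
    obtain ⟨f, h1, h2, h3⟩ := hf
    exact Pool.Agent.Q46.FR.small hp (by omega) hD₁ hD₂ (f := f) ⟨h1, h2, h3⟩ hl hl3 hlp hgood

end Pool.Agent.Results.MP_a60a76_nt.FinitelyManyExceptions
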