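import Pool.Agent.Q138.PS.WO
import Pool.Agent.Q138.AJ.Ra60a76

/-!
# The Frey-Mazur conjecture for elliptic curves with invariants close to given points

Let `Y` be a metric space and `p : ℚ → Y` any map, for instance the inclusion of `ℚ` in `ℝ` or in `ℚ_ℓ`. `H(j)` is the height of
the rational number `j` (for `j = a / b` in lowest terms the maximum of `|a|` and `b`).

(1) For `P ≥ 17` and `τ > 0` there is a set `Z ⊆ Y` of Hausdorff dimension at most `7 / (2 P τ)` such that for every `z ∈ Y`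
outside `Z`, EVERY elliptic curve `E₀` over `ℚ` and every `c` only finitely many of the `j ∈ ℚ` with
`dist (p j, z) ≤ c H(j) ^ (-τ)` are invariants of elliptic curves over `ℚ` which are `ℓ`-congruent to `E₀` for some prime
`ℓ ≥ P`. (For `P = 19` these are all primes of the conjecture; for `Y = ℝ` and `τ = 2`, Dirichlet's exponent, the dimension
is at most `7 / 76`.)

(2) There is ONE set `Z ⊆ Y` of Hausdorff dimension ZERO such that for every `z ∈ Y` outside `Z`, every `τ > 0` and `c` there is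
`N` such that all but finitely many of the `j ∈ ℚ` with `dist (p j, z) ≤ c H(j) ^ (-τ)` have the following property: no elliptic
curve over `ℚ` of invariant `j` is `ℓ`-congruent, for any prime `ℓ ≥ N`, to ANY curve `y² = x³ + A₀ x + B₀` with integers
`|A₀|, |B₀| ≤ H(j) ^ (1 / N)`.
-/

set_option autoImplicit false

namespace Pool.Agent.Results.MP_a60a76_nt.InvariantsNearGivenPoints

open Pool.Agent.Q138.PS Pool.Agent.Q138.AJ.Ra60a76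

/-- the height of a rational number -/
noncomputable def ht (j : ℚ) : ℝ := max |(j.num : ℝ)| (j.den : ℝ)

/-- Some elliptic curve over `ℚ` of invariant `j` is `ℓ`-congruent to `y² = x³ + A₀ x + B₀` for some prime `ℓ ≥ P`. -/
def Partner (P : ℕ) (A₀ B₀ : ℤ) (j : ℚ) : Prop :=
  ∃ A B : ℚ, 4 * A ^ 3 + 27 * B ^ 2 ≠ 0 ∧ jInvariant A B = j ∧
    ∃ ℓ : ℕ, ℓ.Prime ∧ P ≤ ℓ ∧ Congruent ℓ A B (A₀ : ℚ) (B₀ : ℚ)

/-- The rational numbers whose images are within `c H(j) ^ (-τ)` of `z`. -/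
def Near {Y : Type} [MetricSpace Y] (p : ℚ → Y) (z : Y) (c τ : ℝ) : Set ℚ := {j | dist (p j) z ≤ c * ht j ^ (-τ)}

theorem one_le_ht (j : ℚ) : 1 ≤ ht j := by
  unfold ht
  refine le_max_of_le_right ?_
  exact_mod_cast j.den_pos

theorem partners_eq (P : ℕ) (A₀ B₀ : ℤ) (X : ℝ) : {s | s ∈ {j | Partner P A₀ B₀ j} ∧ ht s ≤ X} = Partners P A₀ B₀ X := by
  ext j
  unfold Partners Partner ht
  simp only [Set.mem_ofPred_eq, max_le_iff]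
  constructor
  · rintro ⟨h1, h2, h3⟩
    exact ⟨h2, h3, h1⟩
  · rintro ⟨h2, h3, h1⟩
    exact ⟨h1, h2, h3⟩

/-- the small equations -/
def Small (N : ℕ) (j : ℚ) (A₀ B₀ : ℤ) : Prop :=
  4 * A₀ ^ 3 + 27 * B₀ ^ 2 ≠ 0 ∧ |(A₀ : ℝ)| ≤ ht j ^ (1 / (N : ℝ)) ∧ |(B₀ : ℝ)| ≤ ht j ^ (1 / (N : ℝ))

theorem disc_le {A₀ B₀ : ℤ} {u : ℝ} (hu : 1 ≤ u) (hA : |(A₀ : ℝ)| ≤ u) (hB : |(B₀ : ℝ)| ≤ u) :
    |((4 * A₀ ^ 3 + 27 * B₀ ^ 2 : ℤ) : ℝ)| ≤ 31 * u ^ 3 := by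
  push_cast
  have h1 : |4 * (A₀ : ℝ) ^ 3| ≤ 4 * u ^ 3 := by
    rw [abs_mul, abs_pow]
    simp only [Nat.abs_ofNat]
    gcongr
  have h2 : |27 * (B₀ : ℝ) ^ 2| ≤ 27 * u ^ 3 := by
    rw [abs_mul, abs_pow]
    simp only [Nat.abs_ofNat]
    have h3 : |(B₀ : ℝ)| ^ 2 ≤ u ^ 2 := by gcongr
    have h4 : u ^ 2 ≤ u ^ 3 := pow_le_pow_right₀ hu (by norm_num)
    linarith
  calc |4 * (A₀ : ℝ) ^ 3 + 27 * (B₀ : ℝ) ^ 2| ≤ |4 * (A₀ : ℝ) ^ 3| + |27 * (B₀ : ℝ) ^ 2| := abs_add_le _ _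
    _ ≤ 31 * u ^ 3 := by linarith

/-- the number of the invariants of partners of the small equations -/
theorem count {ε : ℝ} (hε : 0 < ε) : ∃ (N : ℕ) (C : ℝ), ∀ T, 1 ≤ T →
    {s | s ∈ {j | ∃ A₀ B₀ : ℤ, Small (N + 17) j A₀ B₀ ∧ Partner (N + 17) A₀ B₀ j} ∧ ht s ≤ T}.Finite ∧
    (({s | s ∈ {j | ∃ A₀ B₀ : ℤ, Small (N + 17) j A₀ B₀ ∧ Partner (N + 17) A₀ B₀ j} ∧ ht s ≤ T}).ncard : ℝ) ≤ C * T ^ ε := by
  classical
  obtain ⟨C, κ, h⟩ := Pool.Agent.Q138.AJ.Ra60a76.result (ε / 2) (by positivity)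
  obtain ⟨N, hN⟩ := exists_nat_gt ((6 + 3 * |κ|) * 2 / ε)
  rw [div_lt_iff₀ hε] at hN
  have hP0 : (0 : ℝ) < ((N + 17 : ℕ) : ℝ) := by positivity
  refine ⟨N, 9 * (|C| * 31 ^ |κ|), fun T hT => ?_⟩
  have hT0 : 0 < T := by linarith
  set u : ℝ := T ^ (1 / ((N + 17 : ℕ) : ℝ)) with hu
  have hu1 : 1 ≤ u := Real.one_le_rpow hT (by positivity)
  have hu0 : 0 < u := by linarith
  set M : ℤ := ⌊u⌋ with hM
  have hM0 : 0 ≤ M := Int.floor_nonneg.2 hu0.le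
  set F : Finset (ℤ × ℤ) := ((Finset.Icc (-M) M) ×ˢ (Finset.Icc (-M) M)).filter fun q => 4 * q.1 ^ 3 + 27 * q.2 ^ 2 ≠ 0 with hF
  have hmemF : ∀ A₀ B₀ : ℤ, |(A₀ : ℝ)| ≤ u → |(B₀ : ℝ)| ≤ u → 4 * A₀ ^ 3 + 27 * B₀ ^ 2 ≠ 0 → (A₀, B₀) ∈ F := by
    intro A₀ B₀ hA hB hD
    have h1 : ∀ x : ℤ, |(x : ℝ)| ≤ u → x ∈ Finset.Icc (-M) M := by
      intro x hx
      rw [Finset.mem_Icc, ← abs_le]
      rw [hM, Int.le_floor]
      push_cast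
      exact hx
    rw [hF, Finset.mem_filter, Finset.mem_product]
    exact ⟨⟨h1 _ hA, h1 _ hB⟩, hD⟩
  have hFu : ∀ q ∈ F, |(q.1 : ℝ)| ≤ u ∧ |(q.2 : ℝ)| ≤ u ∧ 4 * q.1 ^ 3 + 27 * q.2 ^ 2 ≠ 0 := by
    intro q hq
    rw [hF, Finset.mem_filter, Finset.mem_product, Finset.mem_Icc, Finset.mem_Icc] at hq
    have h1 : ∀ x : ℤ, -M ≤ x → x ≤ M → |(x : ℝ)| ≤ u := by
      intro x h1 h2
      have h3 : |x| ≤ M := abs_le.2 ⟨h1, h2⟩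
      rw [hM, Int.le_floor] at h3
      push_cast at h3
      exact h3
    exact ⟨h1 _ hq.1.1.1 hq.1.1.2, h1 _ hq.1.2.1 hq.1.2.2, hq.2⟩
  have hcard : (F.card : ℝ) ≤ 9 * u ^ 2 := by
    have h1 : F.card ≤ (2 * M + 1).toNat * (2 * M + 1).toNat := by
      refine (Finset.card_filter_le _ _).trans ?_
      rw [Finset.card_product, Int.card_Icc, show M + 1 - -M = 2 * M + 1 by ring]
    have h2 : (((2 * M + 1).toNat : ℕ) : ℝ) ≤ 3 * u := by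
      have h3 : (((2 * M + 1).toNat : ℕ) : ℝ) = 2 * (M : ℝ) + 1 := by
        have h4 : (((2 * M + 1).toNat : ℕ) : ℤ) = 2 * M + 1 := Int.toNat_of_nonneg (by omega)
        have h5 : ((((2 * M + 1).toNat : ℕ) : ℤ) : ℝ) = ((2 * M + 1 : ℤ) : ℝ) := by rw [h4]
        push_cast at h5
        exact h5
      rw [h3]
      have h6 : (M : ℝ) ≤ u := Int.floor_le u
      linarith
    calc (F.card : ℝ) ≤ (((2 * M + 1).toNat : ℕ) : ℝ) * (((2 * M + 1).toNat : ℕ) : ℝ) := by exact_mod_cast h1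
      _ ≤ (3 * u) * (3 * u) := mul_le_mul h2 h2 (Nat.cast_nonneg _) (by positivity)
      _ = 9 * u ^ 2 := by ring
  have hsub : {s | s ∈ {j | ∃ A₀ B₀ : ℤ, Small (N + 17) j A₀ B₀ ∧ Partner (N + 17) A₀ B₀ j} ∧ ht s ≤ T} ⊆
      ⋃ q ∈ F, Partners (N + 17) q.1 q.2 T := by
    rintro j ⟨⟨A₀, B₀, ⟨hD, hA, hB⟩, hj⟩, hjT⟩
    have h1 : ht j ^ (1 / ((N + 17 : ℕ) : ℝ)) ≤ u :=
      Real.rpow_le_rpow (by linarith [one_le_ht j]) hjT (by positivity)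
    simp only [Set.mem_iUnion]
    refine ⟨(A₀, B₀), hmemF A₀ B₀ (hA.trans h1) (hB.trans h1) hD, ?_⟩
    rw [← partners_eq]
    exact ⟨hj, hjT⟩
  have hone : ∀ q ∈ F, (Partners (N + 17) q.1 q.2 T).Finite ∧ ((Partners (N + 17) q.1 q.2 T).ncard : ℝ) ≤
      (|C| * 31 ^ |κ|) * (u ^ (3 * |κ|) * T ^ (7 / (2 * ((N + 17 : ℕ) : ℝ)) + ε / 2)) := by
    intro q hq
    obtain ⟨h1, h2, h3⟩ := hFu q hq
    obtain ⟨h4, h5⟩ := h q.1 q.2 h3 (N + 17) T (by omega) hT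
    refine ⟨h4, h5.trans ?_⟩
    have h6 : 1 ≤ |((4 * q.1 ^ 3 + 27 * q.2 ^ 2 : ℤ) : ℝ)| := by
      rw [← Int.cast_abs]
      exact_mod_cast Int.one_le_abs h3
    have h7 : |((4 * q.1 ^ 3 + 27 * q.2 ^ 2 : ℤ) : ℝ)| ^ κ ≤ 31 ^ |κ| * u ^ (3 * |κ|) := by
      calc |((4 * q.1 ^ 3 + 27 * q.2 ^ 2 : ℤ) : ℝ)| ^ κ ≤ |((4 * q.1 ^ 3 + 27 * q.2 ^ 2 : ℤ) : ℝ)| ^ |κ| :=
            Real.rpow_le_rpow_of_exponent_le h6 (le_abs_self κ)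
        _ ≤ (31 * u ^ 3) ^ |κ| := Real.rpow_le_rpow (by linarith) (disc_le hu1 h1 h2) (abs_nonneg _)
        _ = 31 ^ |κ| * u ^ (3 * |κ|) := by
            rw [Real.mul_rpow (by norm_num) (by positivity), ← Real.rpow_natCast u 3, ← Real.rpow_mul hu0.le]
            norm_num
    have hT' : 0 ≤ T ^ (7 / (2 * ((N + 17 : ℕ) : ℝ)) + ε / 2) := Real.rpow_nonneg hT0.le _
    calc C * |((4 * q.1 ^ 3 + 27 * q.2 ^ 2 : ℤ) : ℝ)| ^ κ * T ^ (7 / (2 * ((N + 17 : ℕ) : ℝ)) + ε / 2) ≤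
          |C| * |((4 * q.1 ^ 3 + 27 * q.2 ^ 2 : ℤ) : ℝ)| ^ κ * T ^ (7 / (2 * ((N + 17 : ℕ) : ℝ)) + ε / 2) := by
            refine mul_le_mul_of_nonneg_right (mul_le_mul_of_nonneg_right (le_abs_self C) ?_) hT'
            exact Real.rpow_nonneg (abs_nonneg _) _
      _ ≤ |C| * (31 ^ |κ| * u ^ (3 * |κ|)) * T ^ (7 / (2 * ((N + 17 : ℕ) : ℝ)) + ε / 2) := by
            refine mul_le_mul_of_nonneg_right (mul_le_mul_of_nonneg_left h7 (abs_nonneg _)) hT'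
      _ = _ := by ring
  have hUfin : (⋃ q ∈ F, Partners (N + 17) q.1 q.2 T).Finite := by
    refine Set.Finite.biUnion (Finset.finite_toSet F) fun q hq => (hone q hq).1
  refine ⟨hUfin.subset hsub, ?_⟩
  have h8 : (({s | s ∈ {j | ∃ A₀ B₀ : ℤ, Small (N + 17) j A₀ B₀ ∧ Partner (N + 17) A₀ B₀ j} ∧ ht s ≤ T}).ncard : ℝ) ≤
      ((⋃ q ∈ F, Partners (N + 17) q.1 q.2 T).ncard : ℝ) := by
    exact_mod_cast Set.ncard_le_ncard hsub hUfin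
  have h9 : ((⋃ q ∈ F, Partners (N + 17) q.1 q.2 T).ncard : ℝ) ≤ ∑ q ∈ F, ((Partners (N + 17) q.1 q.2 T).ncard : ℝ) := by
    exact_mod_cast Finset.set_ncard_biUnion_le F _
  refine h8.trans (h9.trans ((Finset.sum_le_sum fun q hq => (hone q hq).2).trans ?_))
  rw [Finset.sum_const, nsmul_eq_mul]
  have hK : 0 ≤ (|C| * 31 ^ |κ|) * (u ^ (3 * |κ|) * T ^ (7 / (2 * ((N + 17 : ℕ) : ℝ)) + ε / 2)) := by positivity
  refine (mul_le_mul_of_nonneg_right hcard hK).trans ?_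
  have e : 9 * u ^ 2 * (|C| * 31 ^ |κ| * (u ^ (3 * |κ|) * T ^ (7 / (2 * ((N + 17 : ℕ) : ℝ)) + ε / 2))) =
      9 * (|C| * 31 ^ |κ|) * T ^ (1 / ((N + 17 : ℕ) : ℝ) * 2 + 1 / ((N + 17 : ℕ) : ℝ) * (3 * |κ|) +
        (7 / (2 * ((N + 17 : ℕ) : ℝ)) + ε / 2)) := by
    have e1 : T ^ (1 / ((N + 17 : ℕ) : ℝ) * 2) = u ^ 2 := by
      rw [Real.rpow_mul hT0.le, ← hu]
      norm_num
    have e2 : T ^ (1 / ((N + 17 : ℕ) : ℝ) * (3 * |κ|)) = u ^ (3 * |κ|) := by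
      rw [Real.rpow_mul hT0.le, ← hu]
    rw [Real.rpow_add hT0 (1 / ((N + 17 : ℕ) : ℝ) * 2 + 1 / ((N + 17 : ℕ) : ℝ) * (3 * |κ|)),
      Real.rpow_add hT0 (1 / ((N + 17 : ℕ) : ℝ) * 2), e1, e2]
    ring
  rw [e]
  refine mul_le_mul_of_nonneg_left (Real.rpow_le_rpow_of_exponent_le hT ?_) (by positivity)
  have h10 : 1 / ((N + 17 : ℕ) : ℝ) * 2 + 1 / ((N + 17 : ℕ) : ℝ) * (3 * |κ|) + 7 / (2 * ((N + 17 : ℕ) : ℝ)) ≤ ε / 2 := by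
    have h11 : 1 / ((N + 17 : ℕ) : ℝ) * 2 + 1 / ((N + 17 : ℕ) : ℝ) * (3 * |κ|) + 7 / (2 * ((N + 17 : ℕ) : ℝ)) =
        (2 + 3 * |κ| + 7 / 2) / ((N + 17 : ℕ) : ℝ) := by
      field_simp
    rw [h11, div_le_iff₀ hP0]
    push_cast
    have h12 : (0 : ℝ) ≤ |κ| := abs_nonneg _
    nlinarith
  linarith

/-- **Theorem.** -/
theorem result (Y : Type) [MetricSpace Y] [MeasurableSpace Y] [BorelSpace Y] (p : ℚ → Y) :
    (∀ (P : ℕ) (τ : ℝ), 17 ≤ P → 0 < τ → ∃ Z : Set Y, dimH Z ≤ ENNReal.ofReal (7 / (2 * P * τ)) ∧ ∀ z, z ∉ Z →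
      ∀ A₀ B₀ : ℤ, 4 * A₀ ^ 3 + 27 * B₀ ^ 2 ≠ 0 → ∀ c : ℝ, {j | j ∈ Near p z c τ ∧ Partner P A₀ B₀ j}.Finite) ∧
    ∃ Z : Set Y, dimH Z = 0 ∧ ∀ z, z ∉ Z → ∀ τ c : ℝ, 0 < τ → ∃ N : ℕ, 0 < N ∧
      {j | j ∈ Near p z c τ ∧ ∃ A₀ B₀ : ℤ, Small N j A₀ B₀ ∧ Partner N A₀ B₀ j}.Finite := by
  refine ⟨fun P τ hP hτ => ?_, ?_⟩
  · have hP0 : (0 : ℝ) < P := by
      have : 0 < P := by omega
      exact_mod_cast this
    have h : ∀ q : {q : ℤ × ℤ // 4 * q.1 ^ 3 + 27 * q.2 ^ 2 ≠ 0}, ∃ Z : Set Y, dimH Z ≤ ENNReal.ofReal (7 / (2 * P) / τ) ∧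
        ∀ z, z ∉ Z → ∀ c : ℝ, {s | s ∈ {j | Partner P q.1.1 q.1.2 j} ∧ dist (p s) z ≤ c * (ht s) ^ (-τ)}.Finite := by
      rintro ⟨⟨A₀, B₀⟩, hD⟩
      refine fin_lim p {j | Partner P A₀ B₀ j} ht one_le_ht (7 / (2 * P)) (by positivity) (fun ε hε => ?_) τ hτ
      obtain ⟨C, κ, h⟩ := Pool.Agent.Q138.AJ.Ra60a76.result ε hε
      refine ⟨C * |((4 * A₀ ^ 3 + 27 * B₀ ^ 2 : ℤ) : ℝ)| ^ κ, fun T hT => ?_⟩
      rw [partners_eq]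
      exact h A₀ B₀ hD P T hP hT
    choose Z hZ hz using h
    refine ⟨⋃ q, Z q, ?_, fun z hzZ A₀ B₀ hD c => ?_⟩
    · rw [dimH_iUnion]
      refine iSup_le fun q => (hZ q).trans (le_of_eq ?_)
      rw [div_div]
    · refine (hz ⟨(A₀, B₀), hD⟩ z (fun hh => hzZ (Set.mem_iUnion.2 ⟨_, hh⟩)) c).subset ?_
      rintro j ⟨h1, h2⟩
      exact ⟨h2, h1⟩
  · obtain ⟨Z, hZ, hz⟩ := fin_eps p (fun N : ℕ => {j | ∃ A₀ B₀ : ℤ, Small (N + 17) j A₀ B₀ ∧ Partner (N + 17) A₀ B₀ j}) ht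
      one_le_ht (fun ε hε => count hε)
    refine ⟨Z, hZ, fun z hzZ τ c hτ => ?_⟩
    obtain ⟨N, hN⟩ := hz z hzZ τ c hτ
    refine ⟨N + 17, by omega, hN.subset ?_⟩
    rintro j ⟨h1, h2⟩
    exact ⟨h2, h1⟩

end Pool.Agent.Results.MP_a60a76_nt.InvariantsNearGivenPoints
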