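import Pool.Agent.Q13.FS.Levels

/-!
# MP_a60a76_nt: 100% of the elliptic curves against any sparse family, at every level

The curves `E : y² = x³ + Ax + B` over `ℚ` are ordered by height (the box `|A| ≤ T²`, `|B| ≤ T³` has
about `4 T⁵` elements).  Two curves are congruent if `E[n]` and `E'[n]` are isomorphic Galois modules for
some `n ≥ 2`.  We show that ANY set of at most `T^(5-c)` curves (any set of curves with at most `T^(5-c)`
different discriminants), of size bounded by a power of `T`, is congruent to almost no curve of the box.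
This is optimal: a set of `4 T⁵` curves can contain the whole box.

(1) For all `c, K, ε > 0` and all large `T`, for EVERY set `D` of at most `T^(5-c)` integers of absolute
value at most `T^K`: for all but a proportion `ε` of the curves `E` of the box there is no `E'` with
`4A'³ + 27B'²` in `D` which is congruent to `E` modulo any `n ≥ 2`.  How large `T` must be does not depend
on `D`; twists of `E`, and `E` itself, are not excepted.

(2) Let `S` be a family of curves with at most `C X^α` members of height at most `X`.  Then, for every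
`θ < 5/(6α)`, 100% of the curves `E` are not congruent, modulo any `n ≥ 2`, to any member of `S` of height
at most `H(E)^θ`.  For the family of all curves `α = 5/6` and `θ < 1`: this is the theorem of the file
`AllSmallerCurves`.  For thin families `θ` is larger: `α = 1/2`, `1/3`, `1/6`, `1/12` for the curves with a
rational torsion point of order `2`, `3`, `5`, `7`, so `θ < 5/3`, `5/2`, `5`, `10`; `α = 1/3` for full
rational two-torsion (the Frey curves and their twists), so `θ < 5/2`; `α = 1/6` for the twists of one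
curve, so `θ < 5` (these values of `α` are known counting theorems, not proved here).

(3) For every `k ≥ 1` and `θ < 5k/6`, 100% of the curves `E` are not congruent, modulo any `n ≥ 2`, to any
curve `E'` whose discriminant is a `k`-th power up to sign and at most `H(E)^θ` in absolute value; there
is no condition on the height of `E'`.

Proof.  By the ramification theorems of the starting library (`W275/FML`) every prime `q ≥ 5` which divides
`D = 4A³ + 27B²` exactly once divides `D'`, at every level `n ≥ 2`.  For almost all `E` the product `s` of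
these `q` is at least `T^(6-η)`.  So `D = s m` with `s ∣ D'`, `|m| ≤ 54 T^η`; by the divisor bound `D` is
one of at most `T^(5-c+3η)` integers.  The number of pairs of curves in the box with equal discriminants
which are not twists is small (`tcnt` of the library), so almost all curves of the box share their
discriminant only with `(A, -B)`, and the number of the exceptions is at most `2 T^(5-c+3η)` plus a small
multiple of `T⁵`.
-/

set_option autoImplicit false

open WeierstrassCurve Filter Topology
open scoped Classical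

namespace Pool.Agent.Results.MP_a60a76_nt.SparseFamilies

/-- The curve `y² = x³ + Ax + B` over `ℚ`. -/
def curve (A B : ℤ) : WeierstrassCurve ℚ := ⟨0, 0, 0, A, B⟩

/-- The group of its points over the algebraic closure of `ℚ`. -/
abbrev Points (A B : ℤ) : Type := ((curve A B).baseChange (AlgebraicClosure ℚ)).toAffine.Point

/-- The action of an automorphism `σ` of the algebraic closure on the points. -/
noncomputable def galois (A B : ℤ) (σ : AlgebraicClosure ℚ ≃ₐ[ℚ] AlgebraicClosure ℚ) :
    Points A B →+ Points A B :=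
  WeierstrassCurve.Affine.Point.map
    (σ : AlgebraicClosure ℚ →ₐ[ℚ] AlgebraicClosure ℚ)

/-- The `n`-torsion of `y² = x³ + Ax + B` and that of `y² = x³ + A'x + B'` are isomorphic as Galois
modules: some map between the groups of points restricts to a bijective additive map of the
`n`-torsion which commutes with the Galois group. -/
def Congruent (n : ℕ) (A B A' B' : ℤ) : Prop :=
  ∃ f : Points A B → Points A' B', (∀ P Q, n • P = 0 → n • Q = 0 → f (P + Q) = f P + f Q) ∧
    Set.BijOn f {P | n • P = 0} {Q | n • Q = 0} ∧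
    ∀ (σ : AlgebraicClosure ℚ ≃ₐ[ℚ] AlgebraicClosure ℚ) (P : Points A B), n • P = 0 →
      f (galois A B σ P) = galois A' B' σ (f P)

/-- The equations with `|A| ≤ T²` and `|B| ≤ T³`. -/
def Box (T : ℕ) : Set (ℤ × ℤ) := {p | |p.1| ≤ (T : ℤ) ^ 2 ∧ |p.2| ≤ (T : ℤ) ^ 3}

/-- The discriminant, up to the factor `-16`. -/
def disc (A B : ℤ) : ℤ := 4 * A ^ 3 + 27 * B ^ 2

/-- The height of `y² = x³ + Ax + B`. -/
def height (A B : ℤ) : ℤ := max (4 * |A| ^ 3) (27 * B ^ 2)

/-- No curve `E'` with the property `Q E E'` is congruent to `E = (A, B)` modulo any `n ≥ 2`. -/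
def NoPartner (Q : ℤ × ℤ → ℤ × ℤ → Prop) (p : ℤ × ℤ) : Prop :=
  ∀ p' : ℤ × ℤ, disc p'.1 p'.2 ≠ 0 → Q p p' → ∀ n : ℕ, 2 ≤ n → ¬ Congruent n p.1 p.2 p'.1 p'.2

/-- The proportion of the equations in the box of size `T` which define an elliptic curve `E` without
partners among the `E'` with `Q E E'` tends to `1`. -/
def AlmostAll (Q : ℤ × ℤ → ℤ × ℤ → Prop) : Prop :=
  Tendsto (fun T : ℕ =>
    (({p | p ∈ Box T ∧ disc p.1 p.2 ≠ 0 ∧ NoPartner Q p} : Set (ℤ × ℤ)).ncard : ℝ) /
    ((Box T).ncard : ℝ)) atTop (𝓝 1)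

/-- **Frey-Mazur for 100% of the curves against any sparse family, at every level.** -/
theorem result :
    (∀ c K ε : ℝ, 0 < c → 0 < ε → ∃ T₀ : ℕ, ∀ T : ℕ, T₀ ≤ T →
      ∀ D : Finset ℤ, (D.card : ℝ) ≤ (T : ℝ) ^ (5 - c) → (∀ d ∈ D, (|d| : ℝ) ≤ (T : ℝ) ^ K) →
        (({p | p ∈ Box T ∧ disc p.1 p.2 ≠ 0 ∧
          ¬ NoPartner (fun _ p' => disc p'.1 p'.2 ∈ D) p} : Set (ℤ × ℤ)).ncard : ℝ) ≤
          ε * ((Box T).ncard : ℝ)) ∧
    (∀ (S : Set (ℤ × ℤ)) (α θ C : ℝ), 0 < α → 0 < θ → 6 * α * θ < 5 →
      (∀ X : ℝ, 1 ≤ X →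
        (({q | q ∈ S ∧ (height q.1 q.2 : ℝ) ≤ X} : Set (ℤ × ℤ)).ncard : ℝ) ≤ C * X ^ α) →
      AlmostAll fun p p' => p' ∈ S ∧ (height p'.1 p'.2 : ℝ) ≤ (height p.1 p.2 : ℝ) ^ θ) ∧
    (∀ (k : ℕ) (θ : ℝ), 1 ≤ k → 0 < θ → 6 * θ < 5 * k →
      AlmostAll fun p p' => (∃ u : ℕ, |disc p'.1 p'.2| = (u : ℤ) ^ k) ∧
        ((|disc p'.1 p'.2| : ℤ) : ℝ) ≤ (height p.1 p.2 : ℝ) ^ θ) := by
  refine ⟨fun c K ε hc hε => ?_, fun S α θ C hα hθ hαθ hS => ?_, fun k θ hk hθ hkθ => ?_⟩
  · obtain ⟨T₀, h⟩ := Pool.Agent.Q13.FS.levels c K ε hc hε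
    refine ⟨T₀, fun T hT D hDc hD => ?_⟩
    refine le_trans ?_ ((h T hT D hDc hD).trans
      (mul_le_mul_of_nonneg_left (Pool.Agent.Q13.FS.box_ge T) hε.le))
    refine Nat.cast_le.2 (Set.ncard_le_ncard ?_
      ((Pool.Agent.W275.FM.Bx_finite T).subset fun p hp => hp.1))
    rintro p ⟨hp, hd, hn⟩
    unfold NoPartner at hn
    push Not at hn
    obtain ⟨p', h1, h2, n, h3, h4⟩ := hn
    exact ⟨hp, hd, p'.1, p'.2, h1, h2, n, h3, h4⟩
  · exact Pool.Agent.Q13.FS.lim_family S α θ C hα hθ hαθ hS
  · exact Pool.Agent.Q13.FS.lim_power k hk θ hθ hkθ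

end Pool.Agent.Results.MP_a60a76_nt.SparseFamilies
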